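import Pool.Agent.Helper47.RR.Defs

/-!
# Degrees and genus over a general field of constants
-/

set_option autoImplicit false
set_option linter.style.haveILetI false

namespace Pool.Agent.Helper47.GRR

open Pool.Agent.Helper16 Pool.Agent.Helper47.RR

/-- The degree of a divisor. -/
noncomputable def degG {k L : Type} [Field k] [Field L] [Algebra k L] (D : Dv k L) : ℤ :=
  D.sum fun v n => n * (v.deg : ℤ)

/-- The genus of the function field `L/k`. -/
noncomputable def genusG (k L : Type) [Field k] [Field L] [Algebra k L] : ℤ :=
  sSup (Set.range fun D : Dv k L => degG D - ell D) + 1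

/-- `k` is algebraically closed in `L`. -/
def ConstField (k L : Type) [Field k] [Field L] [Algebra k L] : Prop :=
  ∀ x : L, IsAlgebraic k x → ∃ c : k, algebraMap k L c = x

end Pool.Agent.Helper47.GRR
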